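import Pool.Agent.Lib.MP_b4205f_al.CH.Defs
import Mathlib.Analysis.BoxIntegral.UnitPartition

/-!
Project CHAIN (MP_b4205f_al), module LATT: lattice points in a planar region.
-/

namespace Pool.Agent.Lib.MP_b4205f_al.H78

open scoped Pointwise
open MeasureTheory Filter Topology Pool.Agent.Lib.MP_b4205f_al.CH

/-- the lattice points of the dilate by `U` -/
def pts (T : Set (ℝ × ℝ)) (U : ℕ) : Set (ℤ × ℤ) := {q | ((q.1 : ℝ) / U, (q.2 : ℝ) / U) ∈ T}

theorem pts_finite (T : Set (ℝ × ℝ)) (hT : Bornology.IsBounded T) (U : ℕ) (hU : 1 ≤ U) :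
    (pts T U).Finite := by
  obtain ⟨R, hR⟩ := hT.subset_closedBall (0 : ℝ × ℝ)
  have hU0 : (0 : ℝ) < U := by exact_mod_cast hU
  have hsub : pts T U ⊆ (Set.Icc (-⌈R * U⌉) ⌈R * U⌉) ×ˢ (Set.Icc (-⌈R * U⌉) ⌈R * U⌉) := by
    intro q hq
    have h := hR hq
    rw [Metric.mem_closedBall, dist_zero_right, Prod.norm_def] at h
    simp only [Real.norm_eq_abs] at h
    have h1 := (le_max_left _ _).trans h
    have h2 := (le_max_right _ _).trans h
    have key : ∀ a : ℤ, |(a : ℝ) / U| ≤ R → a ∈ Set.Icc (-⌈R * U⌉) ⌈R * U⌉ := by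
      intro a ha
      rw [abs_div, abs_of_pos hU0, div_le_iff₀ hU0] at ha
      have h3 : ((|a| : ℤ) : ℝ) ≤ ((⌈R * U⌉ : ℤ) : ℝ) := by
        push_cast
        exact ha.trans (Int.le_ceil _)
      have h4 : |a| ≤ ⌈R * U⌉ := by exact_mod_cast h3
      exact abs_le.1 h4
    exact ⟨key _ h1, key _ h2⟩
  exact ((Set.finite_Icc _ _).prod (Set.finite_Icc _ _)).subset hsub

theorem tendsto_pts (T : Set (ℝ × ℝ)) (hb : Bornology.IsBounded T) (hm : MeasurableSet T)
    (hf : volume (frontier T) = 0) :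
    Tendsto (fun U : ℕ => ((pts T U).ncard : ℝ) / (U : ℝ) ^ 2) atTop (𝓝 (volume T).toReal) := by
  set s : Set (Fin 2 → ℝ) := (MeasurableEquiv.finTwoArrow : (Fin 2 → ℝ) ≃ᵐ ℝ × ℝ) ⁻¹' T with hs
  have hmem : ∀ x : Fin 2 → ℝ, x ∈ s ↔ (x 0, x 1) ∈ T := fun x => Iff.rfl
  have hs1 : Bornology.IsBounded s := by
    obtain ⟨R, hR⟩ := hb.subset_closedBall (0 : ℝ × ℝ)
    refine (Metric.isBounded_closedBall (x := (0 : Fin 2 → ℝ)) (r := max R 0)).subset ?_
    intro x hx
    have h := hR ((hmem x).1 hx)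
    rw [Metric.mem_closedBall, dist_zero_right, Prod.norm_def] at h
    rw [Metric.mem_closedBall, dist_zero_right, pi_norm_le_iff_of_nonneg (le_max_right _ _)]
    intro i
    fin_cases i
    · exact ((le_max_left _ _).trans h).trans (le_max_left _ _)
    · exact ((le_max_right _ _).trans h).trans (le_max_left _ _)
  have hs2 : MeasurableSet s := (MeasurableEquiv.finTwoArrow.measurable) hm
  have hs3 : volume (frontier s) = 0 := by
    have e : frontier s = (MeasurableEquiv.finTwoArrow : (Fin 2 → ℝ) ≃ᵐ ℝ × ℝ) ⁻¹' frontier T := by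
      have h1 : s = (Homeomorph.finTwoArrow : (Fin 2 → ℝ) ≃ₜ ℝ × ℝ) ⁻¹' T := rfl
      rw [h1, ← Homeomorph.preimage_frontier]
      rfl
    rw [e, (volume_preserving_finTwoArrow ℝ).measure_preimage_equiv]
    exact hf
  have hvol : volume.real s = (volume T).toReal := by
    rw [Measure.real, hs, (volume_preserving_finTwoArrow ℝ).measure_preimage_equiv]
  have key := tendsto_card_div_pow_atTop_volume s hs1 hs2 hs3
  rw [hvol] at key
  refine key.congr' ?_
  filter_upwards [eventually_ge_atTop 1] with U hU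
  have hU0 : (0 : ℝ) < U := by exact_mod_cast hU
  have : NeZero U := ⟨by omega⟩
  rw [Fintype.card_fin]
  congr 1
  norm_cast
  rw [Nat.card_coe_set_eq]
  have himg : (s ∩ (((U : ℝ)⁻¹ • Submodule.span ℤ (Set.range (Pi.basisFun ℝ (Fin 2))) :
      Submodule ℤ (Fin 2 → ℝ)) : Set (Fin 2 → ℝ))) = (fun q : ℤ × ℤ => (![(q.1 : ℝ) / U, (q.2 : ℝ) / U] : Fin 2 → ℝ)) ''
        pts T U := by
    ext v
    rw [Set.mem_inter_iff, SetLike.mem_coe, BoxIntegral.unitPartition.mem_smul_span_iff]
    constructor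
    · rintro ⟨h1, h2⟩
      obtain ⟨a, ha⟩ := h2 0
      obtain ⟨b, hb⟩ := h2 1
      rw [algebraMap_int_eq, eq_intCast] at ha hb
      have e0 : (a : ℝ) / U = v 0 := by rw [ha]; field_simp
      have e1 : (b : ℝ) / U = v 1 := by rw [hb]; field_simp
      refine ⟨(a, b), ?_, ?_⟩
      · show ((a : ℝ) / U, (b : ℝ) / U) ∈ T
        rw [e0, e1]; exact h1
      · funext i
        fin_cases i
        · exact e0
        · exact e1
    · rintro ⟨q, hq, rfl⟩
      refine ⟨hq, ?_⟩
      intro i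
      fin_cases i
      · refine ⟨q.1, ?_⟩
        simp only [algebraMap_int_eq, eq_intCast]
        show (q.1 : ℝ) = U * ((q.1 : ℝ) / U)
        field_simp
      · refine ⟨q.2, ?_⟩
        simp only [algebraMap_int_eq, eq_intCast]
        show (q.2 : ℝ) = U * ((q.2 : ℝ) / U)
        field_simp
  rw [himg, Set.ncard_image_of_injective]
  intro q q' h
  have h0 := congrFun h 0
  have h1 := congrFun h 1
  have h0' : (q.1 : ℝ) / U = (q'.1 : ℝ) / U := h0
  have h1' : (q.2 : ℝ) / U = (q'.2 : ℝ) / U := h1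
  rw [div_left_inj' hU0.ne'] at h0' h1'
  exact Prod.ext (by exact_mod_cast h0') (by exact_mod_cast h1')

/-- the linear map `(x, y) ↦ (x, n y)` -/
noncomputable def sc (n : ℕ) : (ℝ × ℝ) →ₗ[ℝ] (ℝ × ℝ) :=
  LinearMap.prodMap LinearMap.id ((n : ℝ) • LinearMap.id)

theorem sc_apply (n : ℕ) (q : ℝ × ℝ) : sc n q = (q.1, (n : ℝ) * q.2) := rfl

theorem det_sc (n : ℕ) : LinearMap.det (sc n) = n := by
  unfold sc
  rw [LinearMap.det_prodMap, LinearMap.det_id, LinearMap.det_smul, LinearMap.det_id]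
  simp

theorem latt : LATT_S := by
  intro T n hn hb hm hf ε hε
  have hn0 : (0 : ℝ) < n := by exact_mod_cast hn
  have hn1 : (1 : ℝ) ≤ n := by exact_mod_cast hn
  set T' : Set (ℝ × ℝ) := sc n ⁻¹' T with hT'
  have hdet : LinearMap.det (sc n) ≠ 0 := by rw [det_sc]; exact hn0.ne'
  have hcont : Continuous (sc n) := by
    have : (sc n : ℝ × ℝ → ℝ × ℝ) = fun q => (q.1, (n : ℝ) * q.2) := by
      funext q; exact sc_apply n q
    rw [this]; fun_prop
  have hvol' : ∀ S : Set (ℝ × ℝ), volume (sc n ⁻¹' S) = ENNReal.ofReal |(n : ℝ)⁻¹| * volume S := by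
    intro S
    have := Measure.addHaar_preimage_linearMap (volume : Measure (ℝ × ℝ)) hdet S
    rw [det_sc] at this
    exact this
  have hb' : Bornology.IsBounded T' := by
    obtain ⟨R, hR⟩ := hb.subset_closedBall (0 : ℝ × ℝ)
    refine (Metric.isBounded_closedBall (x := (0 : ℝ × ℝ)) (r := R)).subset ?_
    intro x hx
    have h := hR (show sc n x ∈ T from hx)
    rw [sc_apply, Metric.mem_closedBall, dist_zero_right, Prod.norm_def] at h
    rw [Metric.mem_closedBall, dist_zero_right, Prod.norm_def]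
    simp only [Real.norm_eq_abs] at h ⊢
    refine max_le ((le_max_left _ _).trans h) ?_
    have h2 := (le_max_right _ _).trans h
    rw [abs_mul, abs_of_pos hn0] at h2
    have : |x.2| ≤ (n : ℝ) * |x.2| := by
      have := mul_le_mul_of_nonneg_right hn1 (abs_nonneg x.2)
      linarith
    exact this.trans h2
  have hm' : MeasurableSet T' := hcont.measurable hm
  have hf' : volume (frontier T') = 0 := by
    have hsub : frontier T' ⊆ sc n ⁻¹' frontier T := hcont.frontier_preimage_subset T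
    refine measure_mono_null hsub ?_
    rw [hvol', hf, mul_zero]
  have hv : (volume T').toReal = (volume T).toReal / n := by
    rw [hT', hvol', ENNReal.toReal_mul, ENNReal.toReal_ofReal (abs_nonneg _),
      abs_of_pos (inv_pos.2 hn0)]
    field_simp
  have h1 := tendsto_pts T hb hm hf
  have h2 := tendsto_pts T' hb' hm' hf'
  have h3 := h1.sub h2
  have hlim : (volume T).toReal - (volume T').toReal = (1 - 1 / (n : ℝ)) * (volume T).toReal := by
    rw [hv]; field_simp
  rw [hlim] at h3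
  have h4 := (tendsto_order.1 h3).1 ((1 - 1 / (n : ℝ)) * (volume T).toReal - ε) (by linarith)
  obtain ⟨U0, hU0⟩ := Filter.eventually_atTop.1 (h4.and (eventually_ge_atTop 1))
  refine ⟨U0, fun U hU => ?_⟩
  obtain ⟨h5, h6⟩ := hU0 U hU
  have hU0 : (0 : ℝ) < U := by exact_mod_cast h6
  classical
  have hfin := pts_finite T hb U h6
  have hfin' := pts_finite T' hb' U h6
  refine ⟨hfin.toFinset.filter fun q => ¬ (n : ℤ) ∣ q.2, ?_, ?_⟩
  · intro q hq
    rw [Finset.mem_filter, Set.Finite.mem_toFinset] at hq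
    exact hq
  · have hc1 : (pts T U).ncard = hfin.toFinset.card := Set.ncard_eq_toFinset_card _ hfin
    have hc2 : (pts T' U).ncard = (hfin.toFinset.filter fun q => (n : ℤ) ∣ q.2).card := by
      rw [Set.ncard_eq_toFinset_card _ hfin']
      refine Finset.card_bij' (fun q _ => (q.1, (n : ℤ) * q.2)) (fun q _ => (q.1, q.2 / n))
        ?_ ?_ ?_ ?_
      · intro q hq
        rw [Set.Finite.mem_toFinset] at hq
        rw [Finset.mem_filter, Set.Finite.mem_toFinset]
        refine ⟨?_, Dvd.intro _ rfl⟩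
        have hq' : sc n ((q.1 : ℝ) / U, (q.2 : ℝ) / U) ∈ T := hq
        rw [sc_apply] at hq'
        show ((q.1 : ℝ) / U, (((n : ℤ) * q.2 : ℤ) : ℝ) / U) ∈ T
        have e : (((n : ℤ) * q.2 : ℤ) : ℝ) / U = (n : ℝ) * ((q.2 : ℝ) / U) := by
          push_cast; ring
        rw [e]; exact hq'
      · intro q hq
        rw [Finset.mem_filter, Set.Finite.mem_toFinset] at hq
        rw [Set.Finite.mem_toFinset]
        obtain ⟨hq1, c, hc⟩ := hq
        have hnz : (n : ℤ) ≠ 0 := by exact_mod_cast (by omega : n ≠ 0)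
        have e2 : q.2 / (n : ℤ) = c := by rw [hc]; exact Int.mul_ediv_cancel_left _ hnz
        show sc n ((q.1 : ℝ) / U, (((q.2 / (n : ℤ) : ℤ) : ℤ) : ℝ) / U) ∈ T
        rw [sc_apply, e2]
        have hq1' : ((q.1 : ℝ) / U, (q.2 : ℝ) / U) ∈ T := hq1
        have e : (q.2 : ℝ) / U = (n : ℝ) * ((c : ℝ) / U) := by
          rw [hc]; push_cast; ring
        rw [e] at hq1'
        exact hq1'
      · intro q _
        have hnz : (n : ℤ) ≠ 0 := by exact_mod_cast (by omega : n ≠ 0)
        exact Prod.ext rfl (Int.mul_ediv_cancel_left _ hnz)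
      · intro q hq
        rw [Finset.mem_filter] at hq
        obtain ⟨-, c, hc⟩ := hq
        have hnz : (n : ℤ) ≠ 0 := by exact_mod_cast (by omega : n ≠ 0)
        refine Prod.ext rfl ?_
        show (n : ℤ) * (q.2 / n) = q.2
        rw [hc, Int.mul_ediv_cancel_left _ hnz]
    have hsum := Finset.card_filter_add_card_filter_not (s := hfin.toFinset)
      (fun q : ℤ × ℤ => (n : ℤ) ∣ q.2)
    have hS : ((hfin.toFinset.filter fun q => ¬ (n : ℤ) ∣ q.2).card : ℝ) =
        ((pts T U).ncard : ℝ) - ((pts T' U).ncard : ℝ) := by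
      rw [hc1, hc2, ← hsum]; push_cast; ring
    rw [hS]
    have h7 : ((1 - 1 / (n : ℝ)) * (volume T).toReal - ε) * (U : ℝ) ^ 2 ≤
        (((pts T U).ncard : ℝ) / (U : ℝ) ^ 2 - ((pts T' U).ncard : ℝ) / (U : ℝ) ^ 2) *
          (U : ℝ) ^ 2 := mul_le_mul_of_nonneg_right h5.le (by positivity)
    refine h7.trans (le_of_eq ?_)
    field_simp

end Pool.Agent.Lib.MP_b4205f_al.H78
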