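import Pool.Agent.Lib.MP_b4205f_al.CH.Defs
import Mathlib.Analysis.SpecialFunctions.Pow.Real
import Mathlib.Analysis.Complex.ExponentialBounds

/-!
Project CHAIN (MP_b4205f_al), module NUM: the explicit inequality.
-/

namespace Pool.Agent.Lib.MP_b4205f_al.H78

open Pool.Agent.Lib.MP_b4205f_al.CH

theorem num : NUM_S := by
  intro p n hp hcond
  set P : ℝ := (p : ℝ) with hP
  set N : ℝ := (n : ℝ) with hN
  have hP4 : (4 : ℝ) ≤ P := by rw [hP]; exact_mod_cast hp
  have hP0 : 0 < P := by linarith
  have hN0' : 0 ≤ N := by rw [hN]; positivity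
  set a : ℝ := (P + 2) / 4 with ha
  have ha1 : 1 ≤ a := by rw [ha]; linarith
  have ha0 : 0 < a := by linarith
  -- size of `n`
  have h1 : a ^ 2 ≤ a ^ (P / 2) := by
    have := Real.rpow_le_rpow_of_exponent_le ha1 (by linarith : (2 : ℝ) ≤ P / 2)
    rwa [Real.rpow_two] at this
  have h2 : P / 2 < a ^ 2 := by
    rw [ha]; nlinarith [mul_pos (by linarith : (0 : ℝ) < P - 2) (by linarith : (0 : ℝ) < P - 2)]
  have h3 : P ^ 2 < N ^ 2 := by
    have : 2 * P * (P / 2) < 2 * P * a ^ (P / 2) := by
      have := h2.trans_le h1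
      gcongr
    have e : 2 * P * (P / 2) = P ^ 2 := by ring
    linarith
  have h4 : P < N := lt_of_pow_lt_pow_left₀ 2 hN0' h3
  have h5 : p < n := by
    have h4' : ((p : ℕ) : ℝ) < ((n : ℕ) : ℝ) := h4
    exact_mod_cast h4'
  have h6 : P + 1 ≤ N := by
    rw [hP, hN]; exact_mod_cast h5
  have hN0 : 0 < N := by linarith
  refine ⟨?_, by omega, ?_⟩
  · calc p < n := h5
      _ ≤ n ^ 2 := by nlinarith
  -- the main inequality
  set M : ℝ := MM p n with hM
  have hMdef : M = N ^ 2 / P := rfl
  have hM0 : 0 < M := by rw [hMdef]; positivity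
  set b : ℝ := be p n with hb
  have hbdef : b = 2 * N ^ 2 / (P * (N ^ 2 + 2)) := rfl
  have hb0 : 0 < b := by rw [hbdef]; positivity
  have hb1 : b = 2 / P - 4 / (P * (N ^ 2 + 2)) := by
    rw [hbdef]; field_simp; ring
  have hb2 : b ≤ 2 / P := by
    rw [hb1]
    have : 0 ≤ 4 / (P * (N ^ 2 + 2)) := by positivity
    linarith
  have hM2 : 2 * a ^ (P / 2) ≤ M := by
    rw [hMdef, le_div_iff₀ hP0]; linarith
  have hap : 0 < a ^ (P / 2) := Real.rpow_pos_of_pos ha0 _
  have hlog : Real.log 2 + P / 2 * Real.log a ≤ Real.log M := by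
    have := Real.log_le_log (by positivity) hM2
    rwa [Real.log_mul (by norm_num) hap.ne', Real.log_rpow ha0] at this
  have hlogM : Real.log M ≤ M * Real.exp (-1) := by
    have h := Real.log_le_sub_one_of_pos (show 0 < M * Real.exp (-1) by positivity)
    rw [Real.log_mul hM0.ne' (Real.exp_pos _).ne', Real.log_exp] at h
    linarith
  have he : Real.exp (-1) < 0.3678794412 := Real.exp_neg_one_lt_d9
  have hl2 : 0.6931471803 < Real.log 2 := Real.log_two_gt_d9
  -- the error term
  have herr : 4 / (P * (N ^ 2 + 2)) * Real.log M ≤ Real.exp (-1) / P := by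
    have c0 : 0 ≤ 4 / (P * (N ^ 2 + 2)) := by positivity
    calc 4 / (P * (N ^ 2 + 2)) * Real.log M ≤ 4 / (P * (N ^ 2 + 2)) * (M * Real.exp (-1)) :=
          mul_le_mul_of_nonneg_left hlogM c0
      _ = (4 * N ^ 2 / (P * (P * (N ^ 2 + 2)))) * Real.exp (-1) := by
          rw [hMdef]; field_simp
      _ ≤ (1 / P) * Real.exp (-1) := by
          refine mul_le_mul_of_nonneg_right ?_ (Real.exp_pos _).le
          rw [div_le_div_iff₀ (by positivity) hP0]
          have : 4 * N ^ 2 * P ≤ P * (N ^ 2 + 2) * P := by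
            have h7 : 4 * N ^ 2 ≤ P * (N ^ 2 + 2) := by nlinarith [sq_nonneg N]
            exact mul_le_mul_of_nonneg_right h7 hP0.le
          linarith
      _ = Real.exp (-1) / P := by ring
  have hmain : Real.log a + 1 / P ≤ b * Real.log M := by
    have e1 : b * Real.log M = 2 / P * Real.log M - 4 / (P * (N ^ 2 + 2)) * Real.log M := by
      rw [hb1]; ring
    have e2 : 2 / P * (Real.log 2 + P / 2 * Real.log a) = (2 * Real.log 2) / P + Real.log a := by
      field_simp
    have e3 : 2 / P * (Real.log 2 + P / 2 * Real.log a) ≤ 2 / P * Real.log M :=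
      mul_le_mul_of_nonneg_left hlog (by positivity)
    have e4 : 1 / P ≤ (2 * Real.log 2) / P - Real.exp (-1) / P := by
      rw [← sub_div]
      refine div_le_div_of_nonneg_right ?_ hP0.le
      linarith
    linarith
  have hMb : a * (1 + 1 / P) < M ^ b := by
    rw [Real.rpow_def_of_pos hM0]
    calc a * (1 + 1 / P) < a * Real.exp (1 / P) := by
          have := Real.add_one_lt_exp (show (1 / P : ℝ) ≠ 0 by positivity)
          gcongr
          linarith
      _ = Real.exp (Real.log a + 1 / P) := by rw [Real.exp_add, Real.exp_log ha0]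
      _ ≤ Real.exp (Real.log M * b) := by
          refine Real.exp_le_exp.2 ?_
          rw [mul_comm (Real.log M)]; exact hmain
  -- lower bound for `Q(1)`
  have hQ : (P + 1) / 4 < QQ p n := by
    have hQdef : QQ p n = (M ^ b + b / M) / (1 + b) := rfl
    rw [hQdef, lt_div_iff₀ (by linarith)]
    have f1 : (P + 1) / 4 * (1 + b) ≤ (P + 1) / 4 * (1 + 2 / P) := by
      refine mul_le_mul_of_nonneg_left (by linarith) (by linarith)
    have f2 : (P + 1) / 4 * (1 + 2 / P) = a * (1 + 1 / P) := by
      rw [ha]; field_simp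
    have f3 : 0 < b / M := by positivity
    linarith
  have hfac : P / (P + 1) ≤ 1 - 1 / N := by
    have : 1 / N ≤ 1 / (P + 1) := one_div_le_one_div_of_le (by linarith) h6
    have e : P / (P + 1) = 1 - 1 / (P + 1) := by field_simp; ring
    linarith
  have hfac0 : 0 < P / (P + 1) := by positivity
  calc P = 4 * (P / (P + 1)) * ((P + 1) / 4) := by field_simp
    _ < 4 * (P / (P + 1)) * QQ p n := by
        refine mul_lt_mul_of_pos_left hQ (by positivity)
    _ ≤ 4 * (1 - 1 / N) * QQ p n := by
        refine mul_le_mul_of_nonneg_right (by linarith) ?_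
        linarith

end Pool.Agent.Lib.MP_b4205f_al.H78
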